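import Pool.Agent.BLP.StmtsK

/-!
# K_LIM: the one-sided limits exist
-/

namespace Pool.Agent.BLP.H65

open MeasureTheory Filter Topology

noncomputable section

/-- one-sided limits at `θ > 0` of a nonincreasing function, bounded below, on the positive
rationals -/
theorem lim_anti (g : ℚ → ℝ) (c : ℝ) (hc : ∀ q, 0 < q → c ≤ g q)
    (hg : ∀ q q', 0 < q → q < q' → g q' ≤ g q) (θ : ℝ) (hθ : 0 < θ) :
    (∃ a, Tendsto g (comap (fun q : ℚ => (q : ℝ)) (𝓝[<] θ)) (𝓝 a)) ∧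
    (∃ a, Tendsto g (comap (fun q : ℚ => (q : ℝ)) (𝓝[>] θ)) (𝓝 a)) := by
  obtain ⟨q1, h0q1, hq1θ⟩ := exists_rat_btwn hθ
  have h0q1' : (0 : ℚ) < q1 := by exact_mod_cast h0q1
  refine ⟨⟨sInf (g '' {q : ℚ | 0 < q ∧ (q : ℝ) < θ}), ?_⟩,
    ⟨sSup (g '' {q : ℚ | θ < (q : ℝ)}), ?_⟩⟩
  · have hne : (g '' {q : ℚ | 0 < q ∧ (q : ℝ) < θ}).Nonempty := ⟨g q1, q1, ⟨h0q1', hq1θ⟩, rfl⟩
    have hbd : BddBelow (g '' {q : ℚ | 0 < q ∧ (q : ℝ) < θ}) := by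
      refine ⟨c, ?_⟩
      rintro _ ⟨q, hq, rfl⟩
      exact hc q hq.1
    refine tendsto_order.2 ⟨fun a' ha' => ?_, fun a' ha' => ?_⟩
    · have h1 : ∀ᶠ y : ℝ in 𝓝[<] θ, y ∈ Set.Ioo 0 θ := Ioo_mem_nhdsLT hθ
      have h2 : ∀ᶠ q : ℚ in comap (fun q : ℚ => (q : ℝ)) (𝓝[<] θ), (q : ℝ) ∈ Set.Ioo 0 θ :=
        tendsto_comap.eventually h1
      filter_upwards [h2] with q hq
      refine lt_of_lt_of_le ha' (csInf_le hbd ⟨q, ⟨?_, hq.2⟩, rfl⟩)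
      exact_mod_cast hq.1
    · obtain ⟨_, ⟨q0, hq0, rfl⟩, hlt⟩ := exists_lt_of_csInf_lt hne ha'
      have h1 : ∀ᶠ y : ℝ in 𝓝[<] θ, y ∈ Set.Ioo (q0 : ℝ) θ := Ioo_mem_nhdsLT hq0.2
      have h2 : ∀ᶠ q : ℚ in comap (fun q : ℚ => (q : ℝ)) (𝓝[<] θ), (q : ℝ) ∈ Set.Ioo (q0 : ℝ) θ :=
        tendsto_comap.eventually h1
      filter_upwards [h2] with q hq
      refine lt_of_le_of_lt (hg q0 q hq0.1 ?_) hlt
      exact_mod_cast hq.1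
  · obtain ⟨q2, hq2, _⟩ := exists_rat_btwn (lt_add_one θ)
    have hne : (g '' {q : ℚ | θ < (q : ℝ)}).Nonempty := ⟨g q2, q2, hq2, rfl⟩
    have hbd : BddAbove (g '' {q : ℚ | θ < (q : ℝ)}) := by
      refine ⟨g q1, ?_⟩
      rintro _ ⟨q, hq, rfl⟩
      refine hg q1 q h0q1' ?_
      have : (q1 : ℝ) < q := lt_trans hq1θ hq
      exact_mod_cast this
    refine tendsto_order.2 ⟨fun a' ha' => ?_, fun a' ha' => ?_⟩
    · obtain ⟨_, ⟨q0, hq0, rfl⟩, hlt⟩ := exists_lt_of_lt_csSup hne ha'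
      have h1 : ∀ᶠ y : ℝ in 𝓝[>] θ, y ∈ Set.Ioo θ (q0 : ℝ) := Ioo_mem_nhdsGT hq0
      have h2 : ∀ᶠ q : ℚ in comap (fun q : ℚ => (q : ℝ)) (𝓝[>] θ), (q : ℝ) ∈ Set.Ioo θ (q0 : ℝ) :=
        tendsto_comap.eventually h1
      filter_upwards [h2] with q hq
      refine lt_of_lt_of_le hlt (hg q q0 ?_ ?_)
      · have : (0 : ℝ) < q := lt_trans hθ hq.1
        exact_mod_cast this
      · exact_mod_cast hq.2
    · have h1 : ∀ᶠ y : ℝ in 𝓝[>] θ, y ∈ Set.Ioi θ := self_mem_nhdsWithin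
      have h2 : ∀ᶠ q : ℚ in comap (fun q : ℚ => (q : ℝ)) (𝓝[>] θ), (q : ℝ) ∈ Set.Ioi θ :=
        tendsto_comap.eventually h1
      filter_upwards [h2] with q hq
      exact lt_of_le_of_lt (le_csSup hbd ⟨q, hq, rfl⟩) ha'

/-- LIM -/
theorem lim : LimStmt := by
  intro b β hM θ hθ
  obtain ⟨hadd, hlow, hmon, _⟩ := hM
  have hpL : ∀ᶠ q : ℚ in comap (fun q : ℚ => (q : ℝ)) (𝓝[<] θ), 0 < q := by
    have h1 : ∀ᶠ y : ℝ in 𝓝[<] θ, y ∈ Set.Ioo 0 θ := Ioo_mem_nhdsLT hθ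
    have h2 : ∀ᶠ q : ℚ in comap (fun q : ℚ => (q : ℝ)) (𝓝[<] θ), (q : ℝ) ∈ Set.Ioo 0 θ :=
      tendsto_comap.eventually h1
    filter_upwards [h2] with q hq
    exact_mod_cast hq.1
  have hpR : ∀ᶠ q : ℚ in comap (fun q : ℚ => (q : ℝ)) (𝓝[>] θ), 0 < q := by
    have h1 : ∀ᶠ y : ℝ in 𝓝[>] θ, y ∈ Set.Ioi θ := self_mem_nhdsWithin
    have h2 : ∀ᶠ q : ℚ in comap (fun q : ℚ => (q : ℝ)) (𝓝[>] θ), (q : ℝ) ∈ Set.Ioi θ :=
      tendsto_comap.eventually h1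
    filter_upwards [h2] with q hq
    have : (0 : ℝ) < q := lt_trans hθ hq
    exact_mod_cast this
  have e : ∀ q : ℚ, 0 < q → ∀ (m : ℤ) (t : ℝ), - β q (m, t) (m, 0) = β q (m, 0) (m, t) := by
    intro q hq m t
    have h1 := hadd q hq (m, (0 : ℝ)) (m, t) (m, (0 : ℝ))
    have h2 := hadd q hq (m, (0 : ℝ)) (m, (0 : ℝ)) (m, (0 : ℝ))
    linarith
  have key : ∀ (m : ℤ) (t : ℝ),
      (∃ a, Tendsto (fun q : ℚ => β q (m, 0) (m, t)) (comap (fun q : ℚ => (q : ℝ)) (𝓝[<] θ))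
        (𝓝 a)) ∧
      (∃ a, Tendsto (fun q : ℚ => β q (m, 0) (m, t)) (comap (fun q : ℚ => (q : ℝ)) (𝓝[>] θ))
        (𝓝 a)) := by
    intro m t
    rcases le_total 0 t with h | h
    · exact lim_anti _ (b m t - b m 0) (fun q hq => hlow q hq m 0 t h)
        (fun q q' hq hqq => hmon q q' hq hqq m 0 t h) θ hθ
    · obtain ⟨⟨a, ha⟩, ⟨c, hc⟩⟩ := lim_anti (fun q => β q (m, t) (m, 0)) (b m 0 - b m t)
        (fun q hq => hlow q hq m t 0 h) (fun q q' hq hqq => hmon q q' hq hqq m t 0 h) θ hθ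
      refine ⟨⟨-a, ha.neg.congr' ?_⟩, ⟨-c, hc.neg.congr' ?_⟩⟩
      · filter_upwards [hpL] with q hq
        exact e q hq m t
      · filter_upwards [hpR] with q hq
        exact e q hq m t
  choose hl hr using fun m t => (key m t).1
  choose hl' hr' using fun m t => (key m t).2
  exact ⟨hl, hl', hr, hr'⟩

end

end Pool.Agent.BLP.H65
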