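import Pool.Agent.BLP.StmtsK

/-!
# K_NCM: measurability of the set of nice points and of the canonical environment
-/

namespace Pool.Agent.BLP.H65

open MeasureTheory Filter Topology

noncomputable section

/-- local uniform continuity on the rationals -/
def NC (x : XX) : Prop := ∀ r : ℤ, x (r, 0) = 0 ∧ ∀ N k : ℕ, ∃ j : ℕ, ∀ s t : ℚ,
  (|(s : ℝ)| ≤ N ∧ |(t : ℝ)| ≤ N ∧ |(s : ℝ) - t| < 1 / ((j : ℝ) + 1)) →
    |x (r, s) - x (r, t)| ≤ 1 / ((k : ℝ) + 1)

theorem nc_of_nice (x : XX) (h : Nice x) : NC x := by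
  obtain ⟨b, hb, h0, hx⟩ := h
  intro r
  refine ⟨?_, fun N k => ?_⟩
  · rw [← hx r 0, Rat.cast_zero]
    exact h0 r
  · have hu : UniformContinuousOn (b r) (Set.Icc (-(N : ℝ)) N) :=
      isCompact_Icc.uniformContinuousOn_of_continuous (hb r).continuousOn
    rw [Metric.uniformContinuousOn_iff] at hu
    obtain ⟨δ, hδ, hu⟩ := hu (1 / ((k : ℝ) + 1)) (by positivity)
    obtain ⟨j, hj⟩ := exists_nat_one_div_lt hδ
    refine ⟨j, fun s t hst => ?_⟩
    have h1 := hu s (abs_le.1 hst.1) t (abs_le.1 hst.2.1)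
      (by rw [Real.dist_eq]; exact lt_trans hst.2.2 hj)
    rw [Real.dist_eq, hx, hx] at h1
    exact h1.le

theorem nc_tendsto (x : XX) (h : NC x) (r : ℤ) (a : ℝ) :
    ∃ c, Tendsto (fun q : ℚ => x (r, q)) (comap (fun q : ℚ => (q : ℝ)) (𝓝 a)) (𝓝 c) := by
  have hne : (comap (fun q : ℚ => (q : ℝ)) (𝓝 a)).NeBot :=
    Rat.isDenseEmbedding_coe_real.isDenseInducing.comap_nhds_neBot a
  rw [← cauchy_map_iff_exists_tendsto, Metric.cauchy_iff]
  refine ⟨hne.map _, fun ε hε => ?_⟩
  obtain ⟨N, hN⟩ := exists_nat_ge (|a| + 1)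
  obtain ⟨k, hk⟩ := exists_nat_one_div_lt hε
  obtain ⟨j, hj⟩ := (h r).2 N k
  have hj0 : (0 : ℝ) < 1 / ((j : ℝ) + 1) := by positivity
  refine ⟨(fun q : ℚ => x (r, q)) '' {q : ℚ | |(q : ℝ) - a| < min 1 (1 / ((j : ℝ) + 1) / 2)},
    ?_, ?_⟩
  · refine image_mem_map ?_
    have h1 : ∀ᶠ y : ℝ in 𝓝 a, |y - a| < min 1 (1 / ((j : ℝ) + 1) / 2) := by
      have : (0 : ℝ) < min 1 (1 / ((j : ℝ) + 1) / 2) := lt_min one_pos (half_pos hj0)
      filter_upwards [Metric.ball_mem_nhds a this] with y hy
      rwa [Metric.mem_ball, Real.dist_eq] at hy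
    exact tendsto_comap.eventually h1
  · rintro _ ⟨s, hs, rfl⟩ _ ⟨t, ht, rfl⟩
    rw [Set.mem_ofPred_eq, lt_min_iff] at hs ht
    have e1 : |(s : ℝ)| ≤ N := by
      have := abs_sub_abs_le_abs_sub (s : ℝ) a
      linarith [hs.1]
    have e2 : |(t : ℝ)| ≤ N := by
      have := abs_sub_abs_le_abs_sub (t : ℝ) a
      linarith [ht.1]
    have e3 : |(s : ℝ) - t| < 1 / ((j : ℝ) + 1) := by
      have := abs_sub_le (s : ℝ) a t
      have h2 : |a - (t : ℝ)| = |(t : ℝ) - a| := abs_sub_comm _ _
      linarith [hs.2, ht.2]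
    rw [Real.dist_eq]
    exact lt_of_le_of_lt (hj s t ⟨e1, e2, e3⟩) hk

theorem nice_of_nc (x : XX) (h : NC x) : Nice x := by
  have hD : IsDenseInducing (fun q : ℚ => (q : ℝ)) := Rat.isDenseEmbedding_coe_real.isDenseInducing
  have hE : ∀ (r : ℤ) (q : ℚ), hD.extend (fun q : ℚ => x (r, q)) (q : ℝ) = x (r, q) := by
    intro r q
    refine hD.extend_eq_at (f := fun q : ℚ => x (r, q)) (a := q) ?_
    obtain ⟨c, hc⟩ := nc_tendsto x h r q
    rw [← hD.nhds_eq_comap q] at hc
    exact continuousAt_of_tendsto_nhds hc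
  refine ⟨fun r => hD.extend (fun q : ℚ => x (r, q)), fun r => ?_, fun r => ?_, hE⟩
  · exact hD.continuous_extend (fun a => nc_tendsto x h r a)
  · have := hE r 0
    rw [Rat.cast_zero] at this
    exact this.trans (h r).1

theorem nice_iff (x : XX) : Nice x ↔ NC x := ⟨nc_of_nice x, nice_of_nc x⟩

theorem meas_nc : MeasurableSet {x : XX | NC x} := by
  rw [measurableSet_setOfPred]
  unfold NC
  refine Measurable.forall fun r => Measurable.and ?_ ?_
  · exact measurableSet_setOfPred.1 (measurableSet_eq_fun (measurable_pi_apply _) measurable_const)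
  · refine Measurable.forall fun N => Measurable.forall fun k => Measurable.exists fun j =>
      Measurable.forall fun s => Measurable.forall fun t => Measurable.imp measurable_const ?_
    refine measurableSet_setOfPred.1 (measurableSet_le ?_ measurable_const)
    have h1 : Measurable fun x : XX => x (r, s) := measurable_pi_apply _
    have h2 : Measurable fun x : XX => x (r, t) := measurable_pi_apply _
    exact (continuous_abs.measurable).comp (h1.sub h2)

theorem meas_nice : MeasurableSet {x : XX | Nice x} := by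
  have : {x : XX | Nice x} = {x : XX | NC x} := by
    ext x
    exact nice_iff x
  rw [this]
  exact meas_nc

/-- NCM -/
theorem ncm : NcmStmt := by
  classical
  refine ⟨meas_nice, fun r t => ?_⟩
  have ht : t ∈ closure (Set.range (fun q : ℚ => (q : ℝ))) := Rat.denseRange_cast t
  obtain ⟨u, hu, hut⟩ := mem_closure_iff_seq_limit.1 ht
  choose q hq using hu
  refine measurable_of_tendsto_metrizable
    (f := fun (n : ℕ) (x : XX) => if Nice x then x (r, q n) else 0)
    (fun n => Measurable.ite meas_nice (measurable_pi_apply _) measurable_const)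
    (tendsto_pi_nhds.2 fun x => ?_)
  by_cases hx : Nice x
  · have hB : BX x = Classical.choose hx := by
      unfold BX
      rw [dif_pos hx]
    obtain ⟨h1, _, h3⟩ := Classical.choose_spec hx
    rw [← hB] at h1 h3
    simp only [if_pos hx]
    have h4 : (fun n => x (r, q n)) = fun n => BX x r (u n) := by
      funext n
      rw [← h3 r (q n)]
      exact congrArg (BX x r) (hq n)
    rw [h4]
    exact ((h1 r).tendsto t).comp hut
  · have hB : BX x = 0 := by
      unfold BX
      rw [dif_neg hx]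
    simp only [if_neg hx]
    rw [hB]
    exact tendsto_const_nhds

end

end Pool.Agent.BLP.H65
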