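import Pool.Agent.BLP.StmtsM
import Pool.Agent.BLP.StmtsA

/-!
# M_GSA: superadditivity of the expectations
-/

namespace Pool.Agent.BLP.H65

open MeasureTheory ProbabilityTheory Filter Topology Finset

noncomputable section

theorem L_neg_one (b : Env) : L b 0 0 (-1) 0 = 0 := by
  unfold L
  have : {E | ∃ τ : ℤ → ℝ, τ (0 - 1) = 0 ∧ τ (-1) = 0 ∧ (∀ r, (0 : ℤ) ≤ r → r ≤ -1 →
      τ (r - 1) ≤ τ r) ∧ E = En b τ 0 (-1)} = {0} := by
    ext E
    constructor
    · rintro ⟨τ, _, _, _, rfl⟩
      simp [En]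
    · intro hE
      rw [Set.mem_singleton_iff] at hE
      subst hE
      exact ⟨fun _ => 0, rfl, rfl, fun _ _ _ => le_refl _, by simp [En]⟩
  rw [this, csSup_singleton]

/-- GSA -/
theorem m_gsa (hSpl : SplStmt) (hEaq : EaqStmt) (hInt : IntStmt) (hExl : ExlStmt) : GsaStmt := by
  intro X _ μ B hS
  have := hS.prob
  have h1 : ∀ n : ℕ, gg μ B n = aa μ B n * Real.sqrt n := by
    intro n
    rcases Nat.eq_zero_or_pos n with rfl | hn
    · unfold gg
      simp [L_neg_one]
    · have h := hEaq X μ B hS 0 ((n : ℤ) - 1) 0 n (by omega) (by positivity)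
      have e1 : (((n : ℤ) - 1 - 0 + 1).toNat) = n := by omega
      rw [e1] at h
      unfold gg
      simpa using h
  have hI : ∀ (m : ℤ) (s : ℝ) (n : ℤ) (t : ℝ), Integrable (fun x => L (B x) m s n t) μ :=
    fun m s n t => (hInt X μ B hS m s n t).integrable (by norm_num)
  refine ⟨h1, fun n m hn hm => ?_, ?_⟩
  · have h := hEaq X μ B hS (n : ℤ) ((n : ℤ) + m - 1) n (n + m) (by omega) (by
      have : (0 : ℚ) ≤ m := by positivity
      linarith)
    have e1 : (((n : ℤ) + m - 1 - n + 1).toNat) = m := by omega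
    have e2 : (((n + m : ℚ) : ℝ) - ((n : ℚ) : ℝ)) = (m : ℝ) := by push_cast; ring
    rw [e1, e2, ← h1 m] at h
    rw [← h]
    unfold gg
    rw [← integral_add (hI _ _ _ _) (hI _ _ _ _)]
    refine integral_mono ((hI _ _ _ _).add (hI _ _ _ _)) (hI _ _ _ _) fun x => ?_
    have h2 := (hSpl (B x) (hS.cts x) 0 ((n : ℤ) - 1) ((n : ℤ) + m - 1) 0 ((n : ℝ) + m)
      (by omega) (by omega) (by positivity)).1 n (by positivity) (by
        have : (0 : ℝ) ≤ m := by positivity
        linarith)
    rw [sub_add_cancel] at h2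
    simpa using h2
  · obtain ⟨K, hK, hE⟩ := hExl X μ B hS
    have hK0 : 0 < K := lt_of_lt_of_le one_pos hK
    refine ⟨Real.log K + 1, fun n hn => ?_⟩
    obtain ⟨hi, hle⟩ := hE n hn
    have hn1 : (1 : ℝ) ≤ n := by exact_mod_cast hn
    have hpt : ∀ x, L (B x) 0 0 ((n : ℤ) - 1) n ≤ n * Real.log K +
        Real.exp (-(n * Real.log K)) * Real.exp (L (B x) 0 0 ((n : ℤ) - 1) n) := by
      intro x
      rw [← Real.exp_add]
      have := Real.add_one_le_exp (-(n * Real.log K) + L (B x) 0 0 ((n : ℤ) - 1) n)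
      linarith
    have h3 : gg μ B n ≤ ∫ x, (n * Real.log K +
        Real.exp (-(n * Real.log K)) * Real.exp (L (B x) 0 0 ((n : ℤ) - 1) n)) ∂μ := by
      unfold gg
      exact integral_mono (hI _ _ _ _) ((integrable_const _).add (hi.const_mul _)) hpt
    rw [integral_add (integrable_const _) (hi.const_mul _), integral_const, integral_const_mul]
      at h3
    have h4 : Real.exp (-(n * Real.log K)) * ∫ x, Real.exp (L (B x) 0 0 ((n : ℤ) - 1) n) ∂μ ≤
        Real.exp (-(n * Real.log K)) * K ^ n :=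
      mul_le_mul_of_nonneg_left hle (Real.exp_pos _).le
    have h5 : Real.exp (-(n * Real.log K)) * K ^ n = 1 := by
      have : K ^ n = Real.exp (n * Real.log K) := by
        rw [mul_comm, Real.exp_mul, Real.exp_log hK0, Real.rpow_natCast]
      rw [this, ← Real.exp_add, neg_add_cancel, Real.exp_zero]
    have h6 : μ.real Set.univ = 1 := by simp
    rw [h6, one_smul] at h3
    linarith

end

end Pool.Agent.BLP.H65
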