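import Pool.Agent.BLP.StmtsM
import Pool.Agent.BLP.StmtsA

/-!
# M_LLU: law of large numbers, uniform in the end
-/

namespace Pool.Agent.BLP.H65

open MeasureTheory ProbabilityTheory Filter Topology Finset

noncomputable section

/-- the deterministic part: `a` for `n`, grid of mesh `δ n` -/
theorem llu_det (hInc : IncStmt) (hOne : OneStmt) (b : Env) (hb : Cts b) (c η δ A : ℝ) (I n : ℕ)
    (hc : 0 ≤ c) (hδ : 0 < δ) (hcδ : c * Real.sqrt δ ≤ η / 4) (hI : A / δ < I) (hn : 1 ≤ n)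
    (hF : ∀ i : ℕ, i < I → |L b 0 0 n (n * ((i + 1 : ℕ) * δ)) -
      c * Real.sqrt (n * (n * ((i + 1 : ℕ) * δ)))| ≤ η / 8 * n)
    (hG : ∀ u : ℝ, 0 ≤ u → u ≤ I * δ * n → |b n u - b n 0| ≤ η / 16 * n)
    (e : ℝ) (he0 : 0 ≤ e) (heA : e ≤ A * n) :
    |L b 0 0 n e - c * Real.sqrt (n * e)| ≤ η * n / 2 := by
  have hn1 : (1 : ℝ) ≤ n := by exact_mod_cast hn
  have hn0 : (0 : ℝ) < n := by linarith
  have hn00 : (0 : ℤ) ≤ (n : ℤ) := by positivity
  have hδn : 0 < δ * n := mul_pos hδ hn0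
  have hηn : 0 ≤ η / 4 * n := by
    refine mul_nonneg (le_trans (mul_nonneg hc (Real.sqrt_nonneg _)) hcδ) hn0.le
  obtain ⟨i, hi⟩ : ∃ i : ℕ, i = ⌊e / (δ * n)⌋₊ := ⟨_, rfl⟩
  have hq0 : 0 ≤ e / (δ * n) := div_nonneg he0 hδn.le
  have hi1 : (i : ℝ) ≤ e / (δ * n) := by rw [hi]; exact Nat.floor_le hq0
  have hi2 : e / (δ * n) < (i : ℝ) + 1 := by rw [hi]; exact Nat.lt_floor_add_one _
  have hlo : (i : ℝ) * (δ * n) ≤ e := by rwa [le_div_iff₀ hδn] at hi1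
  have hhi : e < ((i : ℝ) + 1) * (δ * n) := by rwa [div_lt_iff₀ hδn] at hi2
  have hiI : i < I := by
    have h1 : (i : ℝ) * (δ * n) < (I : ℝ) * (δ * n) := by
      refine lt_of_le_of_lt (le_trans hlo heA) ?_
      rw [div_lt_iff₀ hδ] at hI
      calc A * n < (I * δ) * n := mul_lt_mul_of_pos_right hI hn0
        _ = (I : ℝ) * (δ * n) := by ring
    have := lt_of_mul_lt_mul_right h1 hδn.le
    exact_mod_cast this
  have hiI' : (i : ℝ) + 1 ≤ I := by exact_mod_cast hiI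
  have hmax : ((i : ℝ) + 1) * (δ * n) ≤ I * δ * n := by
    have := mul_le_mul_of_nonneg_right hiI' hδn.le
    calc ((i : ℝ) + 1) * (δ * n) ≤ (I : ℝ) * (δ * n) := this
      _ = I * δ * n := by ring
  have hei0 : 0 ≤ (i : ℝ) * (δ * n) := by positivity
  obtain ⟨_, hinc, _⟩ := hInc b hb 0 n hn00
  have g1 := abs_le.1 (hG e he0 (by linarith))
  have g2 := abs_le.1 (hG (((i : ℝ) + 1) * (δ * n)) (by linarith) hmax)
  have g3 := abs_le.1 (hG ((i : ℝ) * (δ * n)) hei0 (by linarith))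
  have i1 := hinc 0 e (((i : ℝ) + 1) * (δ * n)) he0 hhi.le
  have i2 := hinc 0 ((i : ℝ) * (δ * n)) e hei0 hlo
  have sq : Real.sqrt (δ * n * n) = Real.sqrt δ * n := by
    rw [mul_assoc, Real.sqrt_mul hδ.le, Real.sqrt_mul_self hn0.le]
  have hadd : ∀ x y : ℝ, 0 ≤ x → 0 ≤ y → Real.sqrt (x + y) ≤ Real.sqrt x + Real.sqrt y := by
    intro x y hx hy
    rw [Real.sqrt_le_left (by positivity)]
    nlinarith [Real.sq_sqrt hx, Real.sq_sqrt hy, Real.sqrt_nonneg x, Real.sqrt_nonneg y,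
      mul_nonneg (Real.sqrt_nonneg x) (Real.sqrt_nonneg y)]
  have s1 : Real.sqrt (n * (((i : ℝ) + 1) * (δ * n))) ≤ Real.sqrt (n * e) + Real.sqrt δ * n := by
    refine le_trans (Real.sqrt_le_sqrt (y := n * e + δ * n * n) ?_) (le_trans (hadd _ _ ?_ ?_)
      (by rw [sq]))
    · nlinarith
    · positivity
    · positivity
  have s2 : Real.sqrt (n * e) ≤ Real.sqrt (n * ((i : ℝ) * (δ * n))) + Real.sqrt δ * n := by
    refine le_trans (Real.sqrt_le_sqrt (y := n * ((i : ℝ) * (δ * n)) + δ * n * n) ?_)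
      (le_trans (hadd _ _ ?_ ?_) (by rw [sq]))
    · nlinarith
    · positivity
    · positivity
  have hcδn : c * (Real.sqrt δ * n) ≤ η / 4 * n := by
    rw [← mul_assoc]
    exact mul_le_mul_of_nonneg_right hcδ hn0.le
  have s1' := mul_le_mul_of_nonneg_left s1 hc
  have s2' := mul_le_mul_of_nonneg_left s2 hc
  rw [mul_add] at s1' s2'
  have f1 := hF i hiI
  have ee : (n : ℝ) * (((i + 1 : ℕ) : ℝ) * δ) = ((i : ℝ) + 1) * (δ * n) := by push_cast; ring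
  rw [ee] at f1
  have f1' := abs_le.1 f1
  have f2 : c * Real.sqrt (n * ((i : ℝ) * (δ * n))) - η / 8 * n ≤ L b 0 0 n ((i : ℝ) * (δ * n)) := by
    rcases Nat.eq_zero_or_pos i with h0 | h0
    · rw [h0, Nat.cast_zero, zero_mul, mul_zero, Real.sqrt_zero, mul_zero,
        (hOne b).2 0 n 0 hn00]
      linarith
    · obtain ⟨j, rfl⟩ : ∃ j, i = j + 1 := ⟨i - 1, by omega⟩
      have f3 := hF j (by omega)
      have e3 : (n : ℝ) * (((j + 1 : ℕ) : ℝ) * δ) = ((j + 1 : ℕ) : ℝ) * (δ * n) := by ring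
      rw [e3] at f3
      linarith [(abs_le.1 f3).1]
  rw [abs_le]
  constructor
  · linarith [g1.1, g1.2, g3.1, g3.2]
  · linarith [g1.1, g1.2, g2.1, g2.2, f1'.2]

/-- LLU -/
theorem m_llu (hInc : IncStmt) (hOne : OneStmt) (hLlq : LlqStmt) (hOsl : OslStmt) : LluStmt := by
  intro X _ μ B hS c hc hlim A η hA hη
  have := hS.prob
  -- the mesh
  obtain ⟨δ, hδ0, hδ1⟩ : ∃ δ : ℚ, 0 < δ ∧ c * Real.sqrt δ ≤ η / 4 := by
    have h1 : (0 : ℝ) < (η / 4 / (c + 1)) ^ 2 := by positivity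
    obtain ⟨δ, h2, h3⟩ := exists_rat_btwn h1
    refine ⟨δ, by exact_mod_cast h2, ?_⟩
    have h4 : Real.sqrt δ ≤ η / 4 / (c + 1) := by
      rw [Real.sqrt_le_left (by positivity)]
      exact h3.le
    calc c * Real.sqrt δ ≤ (c + 1) * (η / 4 / (c + 1)) := by
          refine mul_le_mul (by linarith) h4 (Real.sqrt_nonneg _) (by linarith)
      _ = η / 4 := by field_simp
  have hδ0' : (0 : ℝ) < δ := by exact_mod_cast hδ0
  obtain ⟨I, hI⟩ := exists_nat_gt (A / (δ : ℝ))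
  have hI0 : 0 < I := by
    have : (0 : ℝ) < I := lt_trans (div_pos hA hδ0') hI
    exact_mod_cast this
  -- the events
  have hT : Tendsto (fun n : ℕ =>
      μ {x | ∃ u, 0 ≤ u ∧ u ≤ (I : ℝ) * δ * n ∧ η / 16 * n < |B x n u - B x n 0|} +
      ∑ i ∈ range I, μ {x | η / 8 * n < |L (B x) 0 0 n (n * (((i + 1 : ℕ) * δ : ℚ) : ℝ)) -
        c * Real.sqrt (n * (n * (((i + 1 : ℕ) * δ : ℚ) : ℝ)))|}) atTop (𝓝 0) := by
    have hI0' : (0 : ℝ) < I := by exact_mod_cast hI0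
    have t1 := hOsl X μ B hS ((I : ℝ) * δ) (η / 16) (mul_pos hI0' hδ0') (by positivity)
    have t2 : Tendsto (fun n : ℕ => ∑ i ∈ range I,
        μ {x | η / 8 * n < |L (B x) 0 0 n (n * (((i + 1 : ℕ) * δ : ℚ) : ℝ)) -
        c * Real.sqrt (n * (n * (((i + 1 : ℕ) * δ : ℚ) : ℝ)))|}) atTop
        (𝓝 (∑ i ∈ range I, 0)) := by
      refine tendsto_finsetSum _ fun i _ => ?_
      exact hLlq X μ B hS c hlim (((i + 1 : ℕ) : ℚ) * δ) (η / 8) (by positivity) (by positivity)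
    rw [Finset.sum_const_zero] at t2
    have := t1.add t2
    rwa [add_zero] at this
  refine tendsto_of_tendsto_of_tendsto_of_le_of_le' tendsto_const_nhds hT
    (Eventually.of_forall fun n => bot_le) ?_
  filter_upwards [eventually_ge_atTop 1] with n hn
  have hsub : {x | ∃ e : ℝ, 0 ≤ e ∧ e ≤ A * n ∧
      η * n < |L (B x) 0 0 n e - c * Real.sqrt (n * e)|} ⊆
      {x | ∃ u, 0 ≤ u ∧ u ≤ (I : ℝ) * δ * n ∧ η / 16 * n < |B x n u - B x n 0|} ∪
      ⋃ i ∈ range I, {x | η / 8 * n < |L (B x) 0 0 n (n * (((i + 1 : ℕ) * δ : ℚ) : ℝ)) -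
        c * Real.sqrt (n * (n * (((i + 1 : ℕ) * δ : ℚ) : ℝ)))|} := by
    rintro x ⟨e, he0, heA, hlt⟩
    by_contra hx
    rw [Set.mem_union, not_or] at hx
    obtain ⟨hx1, hx2⟩ := hx
    have hG : ∀ u : ℝ, 0 ≤ u → u ≤ I * δ * n → |B x n u - B x n 0| ≤ η / 16 * n := by
      intro u h0 h1
      by_contra hh
      exact hx1 ⟨u, h0, h1, lt_of_not_ge hh⟩
    have hF : ∀ i : ℕ, i < I → |L (B x) 0 0 n (n * ((i + 1 : ℕ) * (δ : ℝ))) -
        c * Real.sqrt (n * (n * ((i + 1 : ℕ) * (δ : ℝ))))| ≤ η / 8 * n := by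
      intro i hi
      by_contra hh
      refine hx2 (Set.mem_iUnion₂.2 ⟨i, Finset.mem_range.2 hi, ?_⟩)
      have hh' := lt_of_not_ge hh
      rw [Set.mem_ofPred_eq, Rat.cast_mul, Rat.cast_natCast]
      exact hh'
    have := llu_det hInc hOne (B x) (hS.cts x) c η δ A I n hc hδ0' hδ1 hI hn hF hG e he0 heA
    have hn1 : (1 : ℝ) ≤ n := by exact_mod_cast hn
    have : 0 < η * n := by positivity
    linarith
  refine le_trans (measure_mono hsub) (le_trans (measure_union_le _ _) ?_)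
  exact add_le_add le_rfl (measure_biUnion_finset_le _ _)

end

end Pool.Agent.BLP.H65
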