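import Pool.Agent.BLP.StmtsF

/-!
# F_FPH: the limits in measure at rational points
-/

namespace Pool.Agent.BLP.H65

open MeasureTheory ProbabilityTheory Filter Topology Finset
open scoped ENNReal

noncomputable section

/-- FPH -/
theorem f_fph : FphStmt := by
  intro hMea hFcp X _ μ B hS hC
  have := hS.prob
  have key : ∀ (q : ℚ) (m : ℤ) (t : ℚ), ∃ g : X → ℝ, 0 < q → Measurable g ∧
      TendstoInMeasure μ (fun (n : ℕ) x => L (B x) 0 0 n (n * q) - L (B x) m t n (n * q)) atTop
        g := by
    intro q m t
    by_cases hq : 0 < q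
    · obtain ⟨g, hg1, hg2⟩ := hFcp X μ
        (fun (n : ℕ) x => L (B x) 0 0 n (n * q) - L (B x) m t n (n * q))
        (fun n => (hMea X μ B hS _ _ _ _).sub (hMea X μ B hS _ _ _ _)) (by
          intro ε δ hε hδ
          obtain ⟨N1, h1⟩ := hC q (min 0 m) 0 0 (max 0 t) hq (min_le_left _ _) (le_max_left _ _)
            (ε / 2) (δ / 2) (by positivity) (by positivity)
          obtain ⟨N2, h2⟩ := hC q (min 0 m) m t (max 0 t) hq (min_le_right _ _) (le_max_right _ _)
            (ε / 2) (δ / 2) (by positivity) (by positivity)
          refine ⟨max N1 N2, fun n n' hn hn' => ?_⟩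
          have e1 := h1 n n' (le_trans (le_max_left _ _) hn) (le_trans (le_max_left _ _) hn')
          have e2 := h2 n n' (le_trans (le_max_right _ _) hn) (le_trans (le_max_right _ _) hn')
          rw [Rat.cast_zero] at e1
          refine le_trans (measure_mono (fun x hx => ?_)) (le_trans (measure_union_le _ _)
            (le_trans (add_le_add e1 e2) (le_of_eq ?_)))
          · by_contra hh
            rw [Set.mem_union, not_or] at hh
            obtain ⟨ha, hb⟩ := hh
            rw [Set.mem_ofPred_eq, not_lt] at ha hb
            have ha' := ha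
            have hb' := hb
            unfold Dx at ha' hb'
            have hx' : ε < |L (B x) 0 0 n (n * q) - L (B x) m t n (n * q) -
                (L (B x) 0 0 n' (n' * q) - L (B x) m t n' (n' * q))| := hx
            rw [abs_le] at ha' hb'
            refine absurd hx' (not_lt.2 (abs_le.2 ⟨?_, ?_⟩))
            · linarith [ha'.1, ha'.2, hb'.1, hb'.2]
            · linarith [ha'.1, ha'.2, hb'.1, hb'.2]
          · rw [← ENNReal.ofReal_add (by positivity) (by positivity)]
            congr 1
            ring)
      exact ⟨g, fun _ => ⟨hg1, hg2⟩⟩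
    · exact ⟨0, fun h => absurd h hq⟩
  choose Φ hΦ using key
  exact ⟨Φ, fun q hq m t => hΦ q m t hq⟩

end

end Pool.Agent.BLP.H65
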